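import Pool.Agent.X29.RB.Unb

/-!
# Bounded solutions of x_{n+1} = 1/(B_n x_n + x_{n-1}) with periodic coefficient

Complete answer: a finite criterion on `k` and `B_0, ..., B_{k-1}` which is necessary and
sufficient for all positive solutions to be bounded; if it fails, no positive solution is
bounded.

Index convention: `x 0 = x_{-1}`, `x 1 = x_0`, in general `x n = x_{n-1}`.

The criterion.  A token has a position `m`, a slope `l > 0` and a gain `g > 0`.  It jumps:

* if `B_{m+1} ≠ 0`: from `m` to `m + 3`, the gain is multiplied by `l / (1 + B_m l)` and the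
  new slope is `B_{m+1}`;
* if `B_{m+1} = 0`: from `m` to `m + 4`, the gain stays and the new slope is
  `B_{m+2} + l / (1 + B_m l)`.

(A) For every `n` with `B_{n+1} ≠ 0`, a token started at `n + 3` with slope `B_{n+1}` and gain `1`
which is at a position congruent to `n` modulo `k` after `j < k` jumps has gain `< 1` after one
more jump.
(B) If the coefficients vanish on a residue class modulo 4, they vanish on the other residue class
modulo 4 of the same parity.

Meaning: a large value `x_{n+1} = w` with small `x_{n-1}`, `x_n` is followed by the next such large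
value three or four indices later, and (A) says that the product of the asymptotic ratios of these
large values is less than one along every cycle.

If all `B_n > 0`, the criterion says: `3` does not divide `k`, or the three products
`∏_{n < k, n = r mod 3} B_n / (1 + B_n B_{n+2})`, `r = 0, 1, 2`, are less than one.
-/

namespace Pool.Agent.Results.MP_2c9a54_an.BoundednessCriterion

/-- `B` is periodic with least period `k`. -/
def LeastPeriod (B : ℕ → ℝ) (k : ℕ) : Prop :=
  (∀ n, B (n + k) = B n) ∧ ∀ p, 1 ≤ p → p < k → ∃ n, B (n + p) ≠ B n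

/-- `x` is a positive solution (`x n` stands for `x_{n-1}`). -/
def PositiveSolution (B x : ℕ → ℝ) : Prop :=
  0 < x 0 ∧ 0 < x 1 ∧ ∀ n, x (n + 2) = 1 / (B n * x (n + 1) + x n)

/-- `x` is bounded above. -/
def Bounded (x : ℕ → ℝ) : Prop := ∃ M, ∀ n, x n ≤ M

/-- One jump of a token (position, slope, gain). -/
noncomputable def jump (B : ℕ → ℝ) (s : ℕ × ℝ × ℝ) : ℕ × ℝ × ℝ :=
  if B (s.1 + 1) = 0 then
    (s.1 + 4, B (s.1 + 2) + s.2.1 / (1 + B s.1 * s.2.1), s.2.2)
  else
    (s.1 + 3, B (s.1 + 1), s.2.2 * (s.2.1 / (1 + B s.1 * s.2.1)))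

/-- The token after `j` jumps, started after the three-jump at `n`. -/
noncomputable def token (B : ℕ → ℝ) (n j : ℕ) : ℕ × ℝ × ℝ := (jump B)^[j] (n + 3, B (n + 1), 1)

/-- The criterion: finitely many conditions on `k` and `B_0, ..., B_{k-1}`. -/
def Criterion (k : ℕ) (B : ℕ → ℝ) : Prop :=
  (∀ n < k, ∀ j < k, B (n + 1) ≠ 0 → (token B n j).1 % k = n → (token B n (j + 1)).2.2 < 1) ∧
  (∀ c < 4, (∀ i < k, B (c + 4 * i) = 0) → ∀ i < k, B (c + 2 + 4 * i) = 0)

/-- The asymptotic ratio in the case of positive coefficients. -/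
noncomputable def rho (B : ℕ → ℝ) (n : ℕ) : ℝ := B n / (1 + B n * B (n + 2))

open Pool.Agent.X29.RB

lemma jump_eq (B : ℕ → ℝ) : jump B = step B := rfl

lemma token_sh {B : ℕ → ℝ} {k : ℕ} (hper : ∀ n, B (n + k) = B n) (n t j : ℕ) :
    token B (n + k * t) j = sh (k * t) (token B n j) := by
  unfold token
  rw [jump_eq, ← step_iter_sh hper]
  congr 1
  unfold sh
  simp only
  rw [show n + k * t + 1 = n + 1 + k * t by ring, per_mul hper,
    show n + k * t + 3 = n + 3 + k * t by ring]

lemma critA_of {B : ℕ → ℝ} {k : ℕ} (hk : 0 < k) (hper : ∀ n, B (n + k) = B n)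
    (h : Criterion k B) : CritA k B := by
  intro n j t hn hj hpos
  have e : n = n % k + k * (n / k) := (Nat.mod_add_div n k).symm
  set m := n % k with hm
  have hmk : m < k := Nat.mod_lt _ hk
  have hp1 : (token B n j).1 = n + k * t := hpos
  have hn1 : B (m + 1) ≠ 0 := by
    have : B (n + 1) = B (m + 1) := by
      rw [show n + 1 = m + 1 + k * (n / k) by omega, per_mul hper]
    rwa [this] at hn
  have hsh := token_sh hper m (n / k) j
  rw [← e] at hsh
  have hsh2 := token_sh hper m (n / k) (j + 1)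
  rw [← e] at hsh2
  have hmod : (token B m j).1 % k = m := by
    have h2 : (token B m j).1 + k * (n / k) = n + k * t := by
      rw [← hp1, hsh]; rfl
    have h3 : ((token B m j).1 + k * (n / k)) % k = (n + k * t) % k := by rw [h2]
    rw [Nat.add_mul_mod_self_left, Nat.add_mul_mod_self_left] at h3
    rw [h3]
  have h4 := h.1 m hmk j hj hn1 hmod
  change (token B n (j + 1)).2.2 < 1
  rw [hsh2]
  exact h4

lemma of_critA {B : ℕ → ℝ} {k : ℕ} (h : CritA k B) :
    ∀ n < k, ∀ j < k, B (n + 1) ≠ 0 → (token B n j).1 % k = n → (token B n (j + 1)).2.2 < 1 := by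
  intro n hn j hj hb hmod
  refine h n j ((token B n j).1 / k) hb hj ?_
  have := Nat.mod_add_div (token B n j).1 k
  rw [hmod] at this
  exact this.symm

lemma critB_iff {B : ℕ → ℝ} {k : ℕ} (hk : 0 < k) (hper : ∀ n, B (n + k) = B n) :
    CritB B ↔ ∀ c < 4, (∀ i < k, B (c + 4 * i) = 0) → ∀ i < k, B (c + 2 + 4 * i) = 0 := by
  have key : ∀ c i, B (c + 4 * i) = B (c + 4 * (i % k)) := by
    intro c i
    have h1 := Nat.mod_add_div i k
    have : c + 4 * i = c + 4 * (i % k) + k * (4 * (i / k)) := by
      calc c + 4 * i = c + 4 * (i % k + k * (i / k)) := by rw [h1]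
        _ = _ := by ring
    rw [this, per_mul hper]
  constructor
  · intro h c _ hc i _
    apply h c
    intro i
    rw [key]
    exact hc _ (Nat.mod_lt _ hk)
  · intro h c hc i
    -- reduce `c` to its residue
    have hper4 : ∀ a, B (a + 4 * k) = B a := by
      intro a
      rw [show a + 4 * k = a + k * 4 by ring, per_mul hper]
    have h0 : ∀ j, B (c % 4 + 4 * j) = 0 := by
      intro j
      have e1 : c % 4 + 4 * (c / 4) = c := Nat.mod_add_div c 4
      have e2 : B (c % 4 + 4 * j) = B (c % 4 + 4 * j + k * (4 * (c / 4))) := by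
        rw [per_mul hper]
      have hk1 : c / 4 ≤ k * (c / 4) := Nat.le_mul_of_pos_left _ hk
      rw [e2, show c % 4 + 4 * j + k * (4 * (c / 4)) = c + 4 * (j + (k * (c / 4) - c / 4)) by
        have : k * (4 * (c / 4)) = 4 * (k * (c / 4)) := by ring
        omega]
      exact hc _
    have h1 := h (c % 4) (Nat.mod_lt _ (by norm_num)) (fun i _ => h0 i)
    have e3 : c + 2 + 4 * i = c % 4 + 2 + 4 * (c / 4 + i) := by omega
    rw [e3, key]
    exact h1 _ (Nat.mod_lt _ hk)

lemma criterion_iff {B : ℕ → ℝ} {k : ℕ} (hk : 0 < k) (hper : ∀ n, B (n + k) = B n) :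
    Criterion k B ↔ CritA k B ∧ CritB B := by
  constructor
  · intro h
    exact ⟨critA_of hk hper h, (critB_iff hk hper).mpr h.2⟩
  · rintro ⟨h1, h2⟩
    exact ⟨of_critA h1, (critB_iff hk hper).mp h2⟩

/-- There is a positive solution. -/
lemma exists_sol {B : ℕ → ℝ} : ∃ x, PositiveSolution B x := by
  let z : ℕ → ℝ × ℝ := fun n => Nat.rec (1, 1) (fun n p => (p.2, 1 / (B n * p.2 + p.1))) n
  refine ⟨fun n => (z n).1, ?_, ?_, ?_⟩
  · exact one_pos
  · exact one_pos
  · intro n
    rfl

theorem bounded_of_criterion {B : ℕ → ℝ} (hB : ∀ n, 0 ≤ B n) {k : ℕ} (hk : 2 ≤ k)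
    (hlp : LeastPeriod B k) (hcrit : Criterion k B) {x : ℕ → ℝ} (hx : PositiveSolution B x) :
    Bounded x := by
  have hk0 : 0 < k := by omega
  obtain ⟨hper, hmin⟩ := hlp
  obtain ⟨hA, hBc⟩ := (criterion_iff hk0 hper).mp hcrit
  have hx' : Sol B x := hx
  by_cases hno : ∀ m, ∃ i, B (m + 1 + 4 * i) ≠ 0
  · exact bounded_of_contract hB hk0 hper (contract hB hk0 hper hno hA) hx'
  · push Not at hno
    obtain ⟨m, hm⟩ := hno
    have hm3 := hBc _ hm
    have hz : ∀ i, B (m + 1 + 2 * i) = 0 := by
      intro i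
      rcases Nat.even_or_odd' i with ⟨r, rfl | rfl⟩
      · rw [show m + 1 + 2 * (2 * r) = m + 1 + 4 * r by ring]; exact hm r
      · rw [show m + 1 + 2 * (2 * r + 1) = m + 1 + 2 + 4 * r by ring]; exact hm3 r
    -- the coefficients are not all zero
    have hnz : ∀ a, ¬ ∀ i, B (a + i) = 0 := by
      intro a ha
      have hall : ∀ n, B n = 0 := by
        intro n
        rw [← per_mul hper n a]
        have : a ≤ k * a := Nat.le_mul_of_pos_left _ hk0
        rw [show n + k * a = a + (n + (k * a - a)) by omega]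
        exact ha _
      obtain ⟨n, hn⟩ := hmin 1 le_rfl (by omega)
      exact hn (by rw [hall, hall])
    have h1 : ∃ i, B (m + 1 + 1 + 4 * i) ≠ 0 := by
      by_contra hcon
      push Not at hcon
      have h2 := hBc _ hcon
      apply hnz (m + 1)
      intro i
      rcases (show i % 4 = 0 ∨ i % 4 = 1 ∨ i % 4 = 2 ∨ i % 4 = 3 by omega) with h | h | h | h
      · rw [show m + 1 + i = m + 1 + 4 * (i / 4) by omega]; exact hm _
      · rw [show m + 1 + i = m + 1 + 1 + 4 * (i / 4) by omega]; exact hcon _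
      · rw [show m + 1 + i = m + 1 + 2 + 4 * (i / 4) by omega]; exact hm3 _
      · rw [show m + 1 + i = m + 1 + 1 + 2 + 4 * (i / 4) by omega]; exact h2 _
    have h3 : ∃ i, B (m + 1 + 3 + 4 * i) ≠ 0 := by
      by_contra hcon
      push Not at hcon
      have h2 := hBc _ hcon
      apply hnz (m + 3)
      intro i
      rcases (show i % 4 = 0 ∨ i % 4 = 1 ∨ i % 4 = 2 ∨ i % 4 = 3 by omega) with h | h | h | h
      · rw [show m + 3 + i = m + 1 + 2 + 4 * (i / 4) by omega]; exact hm3 _
      · rw [show m + 3 + i = m + 1 + 3 + 4 * (i / 4) by omega]; exact hcon _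
      · rw [show m + 3 + i = m + 1 + 4 * (i / 4 + 1) by omega]; exact hm _
      · rw [show m + 3 + i = m + 1 + 3 + 2 + 4 * (i / 4) by omega]; exact h2 _
    exact bounded_parity hB hk0 hper (m + 1) hz h1 h3 hx'

theorem unbounded_of_not_criterion {B : ℕ → ℝ} (hB : ∀ n, 0 ≤ B n) {k : ℕ} (hk : 0 < k)
    (hper : ∀ n, B (n + k) = B n) (hcrit : ¬ Criterion k B) {x : ℕ → ℝ}
    (hx : PositiveSolution B x) : ¬ Bounded x := by
  rw [criterion_iff hk hper, not_and_or] at hcrit
  rcases hcrit with h | h
  · exact unbounded_A hB hk hper h hx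
  · exact unbounded_B hB hk hper h hx

/-! ### Positive coefficients -/

lemma token_pos {B : ℕ → ℝ} (hB : ∀ n, 0 < B n) (n j : ℕ) :
    token B n j = (n + 3 + 3 * j, B (n + 1 + 3 * j),
      ∏ i ∈ Finset.range j, rho B (n + 1 + 3 * i)) := by
  induction j with
  | zero => simp [token]
  | succ j ih =>
    have e : token B n (j + 1) = jump B (token B n j) := by
      unfold token
      rw [Function.iterate_succ_apply']
    rw [e, ih, jump, if_neg (hB _).ne']
    simp only
    refine Prod.ext ?_ (Prod.ext ?_ ?_)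
    · simp only
      ring
    · simp only
      congr 1
      ring
    · simp only
      rw [Finset.prod_range_succ, rho, mul_comm (B (n + 3 + 3 * j)),
        show n + 1 + 3 * j + 2 = n + 3 + 3 * j by ring]

/-- Rotation of a product along an arithmetic progression. -/
lemma prod_rot {f : ℕ → ℝ} {q : ℕ} (hf : ∀ a, f (a + 3 * q) = f a) (a : ℕ) :
    ∏ i ∈ Finset.range q, f (a + 3 + 3 * i) = ∏ i ∈ Finset.range q, f (a + 3 * i) := by
  have h1 : ∏ i ∈ Finset.range (q + 1), f (a + 3 * i)
      = (∏ i ∈ Finset.range q, f (a + 3 + 3 * i)) * f (a + 3 * 0) := by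
    rw [Finset.prod_range_succ']
    congr 1
    apply Finset.prod_congr rfl
    intro i _
    congr 1
    ring
  have h2 : ∏ i ∈ Finset.range (q + 1), f (a + 3 * i)
      = (∏ i ∈ Finset.range q, f (a + 3 * i)) * f (a + 3 * 0) := by
    rw [Finset.prod_range_succ, hf, mul_zero, add_zero]
  by_cases h0 : f (a + 3 * 0) = 0
  · rcases Nat.eq_zero_or_pos q with hq | hq
    · subst hq; simp
    · have e1 : ∏ i ∈ Finset.range q, f (a + 3 * i) = 0 :=
        Finset.prod_eq_zero (Finset.mem_range.mpr hq) h0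
      have e2 : ∏ i ∈ Finset.range q, f (a + 3 + 3 * i) = 0 := by
        apply Finset.prod_eq_zero (Finset.mem_range.mpr (show q - 1 < q by omega))
        rw [show a + 3 + 3 * (q - 1) = a + 3 * q by omega, hf]
        simpa using h0
      rw [e1, e2]
  · exact mul_right_cancel₀ h0 (h1.symm.trans h2)

lemma prod_rot_mul {f : ℕ → ℝ} {q : ℕ} (hf : ∀ a, f (a + 3 * q) = f a) (a s : ℕ) :
    ∏ i ∈ Finset.range q, f (a + 3 * s + 3 * i) = ∏ i ∈ Finset.range q, f (a + 3 * i) := by
  induction s with
  | zero => simp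
  | succ s ih =>
    rw [← ih, ← prod_rot hf (a + 3 * s)]
    apply Finset.prod_congr rfl
    intro i _
    congr 1

lemma prod_pow {f : ℕ → ℝ} {q : ℕ} (hf : ∀ a, f (a + 3 * q) = f a) (a t : ℕ) :
    ∏ i ∈ Finset.range (q * t), f (a + 3 * i) = (∏ i ∈ Finset.range q, f (a + 3 * i)) ^ t := by
  induction t with
  | zero => simp
  | succ t ih =>
    rw [Nat.mul_succ, Finset.prod_range_add, ih, pow_succ]
    congr 1
    apply Finset.prod_congr rfl
    intro i _
    have : ∀ t a, f (a + 3 * (q * t)) = f a := by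
      intro t
      induction t with
      | zero => intro a; simp
      | succ t ih =>
        intro a
        rw [show a + 3 * (q * (t + 1)) = a + 3 * (q * t) + 3 * q by ring, hf, ih]
    rw [show a + 3 * (q * t + i) = a + 3 * i + 3 * (q * t) by ring, this]

lemma rho_per {B : ℕ → ℝ} {k : ℕ} (hper : ∀ n, B (n + k) = B n) (a t : ℕ) :
    rho B (a + k * t) = rho B a := by
  unfold rho
  rw [show a + k * t + 2 = a + 2 + k * t by ring, per_mul hper, per_mul hper]

lemma rho_pos {B : ℕ → ℝ} (hB : ∀ n, 0 < B n) (a : ℕ) : 0 < rho B a := by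
  unfold rho
  have := hB a
  have := hB (a + 2)
  positivity

/-- If `3` does not divide `k`, the product over a full period is less than one. -/
lemma full_lt {B : ℕ → ℝ} (hB : ∀ n, 0 < B n) {k : ℕ} (hk : 0 < k)
    (hper : ∀ n, B (n + k) = B n) (h3 : ¬ 3 ∣ k) (a : ℕ) :
    ∏ i ∈ Finset.range k, rho B (a + 3 * i) < 1 := by
  set F : ℕ → ℝ := fun a => ∏ i ∈ Finset.range k, B (a + 3 * i) with hF
  have hB3 : ∀ b, B (b + 3 * k) = B b := by
    intro b
    rw [show b + 3 * k = b + k * 3 by ring, per_mul hper]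
  have hF3 : ∀ b s, F (b + 3 * s) = F b := fun b s => prod_rot_mul hB3 b s
  have hFk : ∀ b, F (b + k) = F b := by
    intro b
    apply Finset.prod_congr rfl
    intro i _
    rw [show b + k + 3 * i = b + 3 * i + k by ring, hper]
  have hF2 : F (a + 2) = F a := by
    rcases (show k % 3 = 1 ∨ k % 3 = 2 by omega) with h | h
    · have e : ∀ b, F (b + 1) = F b := by
        intro b
        rw [← hFk b, show b + k = b + 1 + 3 * (k / 3) by omega, hF3]
      rw [show a + 2 = a + 1 + 1 by ring, e, e]
    · rw [← hFk a, show a + k = a + 2 + 3 * (k / 3) by omega, hF3]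
  have hFp : 0 < F a := Finset.prod_pos (fun i _ => hB _)
  have hsq : ∀ b, rho B b ^ 2 ≤ 1 / 4 * (B b / B (b + 2)) := by
    intro b
    have h1 := hB b
    have h2 := hB (b + 2)
    unfold rho
    rw [div_pow, ← mul_div_assoc, div_le_div_iff₀ (by positivity) h2]
    nlinarith [mul_pos h1 h2, sq_nonneg (1 - B b * B (b + 2)), mul_nonneg h1.le
      (sq_nonneg (1 - B b * B (b + 2)))]
  have hprod : (∏ i ∈ Finset.range k, rho B (a + 3 * i)) ^ 2 ≤ (1 / 4) ^ k := by
    rw [← Finset.prod_pow]
    calc ∏ i ∈ Finset.range k, rho B (a + 3 * i) ^ 2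
        ≤ ∏ i ∈ Finset.range k, (1 / 4 * (B (a + 3 * i) / B (a + 3 * i + 2))) := by
          apply Finset.prod_le_prod
          · intro i _; positivity
          · intro i _; exact hsq _
      _ = (1 / 4) ^ k * (F a / F (a + 2)) := by
          rw [Finset.prod_mul_distrib, Finset.prod_const, Finset.card_range,
            Finset.prod_div_distrib]
          congr 2
          apply Finset.prod_congr rfl
          intro i _
          congr 1
          ring
      _ = (1 / 4) ^ k := by rw [hF2, div_self hFp.ne', mul_one]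
  have hlt : ((1 : ℝ) / 4) ^ k < 1 := pow_lt_one₀ (by norm_num) (by norm_num) hk.ne'
  have h0 : 0 ≤ ∏ i ∈ Finset.range k, rho B (a + 3 * i) :=
    Finset.prod_nonneg (fun i _ => (rho_pos hB _).le)
  nlinarith

theorem criterion_pos {B : ℕ → ℝ} (hB : ∀ n, 0 < B n) {k : ℕ} (hk : 0 < k)
    (hper : ∀ n, B (n + k) = B n) :
    Criterion k B ↔ (3 ∣ k → ∀ r < 3, ∏ i ∈ Finset.range (k / 3), rho B (r + 3 * i) < 1) := by
  have hBcrit : ∀ c < 4, (∀ i < k, B (c + 4 * i) = 0) → ∀ i < k, B (c + 2 + 4 * i) = 0 := by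
    intro c _ h
    exact absurd (h 0 hk) (hB _).ne'
  constructor
  · rintro ⟨h, -⟩ ⟨q, rfl⟩ r hr
    rw [Nat.mul_div_cancel_left _ (by norm_num)]
    have hq : 0 < q := by omega
    -- the position `n` with `n + 1 = r` modulo `k`
    obtain ⟨n, hn, e⟩ : ∃ n < 3 * q, n + 1 = r ∨ n + 1 = r + 3 * q := by
      rcases Nat.eq_zero_or_pos r with h0 | h0
      · exact ⟨3 * q - 1, by omega, by omega⟩
      · exact ⟨r - 1, by omega, by omega⟩
    have h1 := h n hn (q - 1) (by omega) (hB _).ne' (by
      rw [token_pos hB]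
      simp only
      rw [show n + 3 + 3 * (q - 1) = n + 3 * q by omega, Nat.add_mod_right, Nat.mod_eq_of_lt hn])
    rw [token_pos hB] at h1
    simp only at h1
    rw [show q - 1 + 1 = q by omega] at h1
    rcases e with e | e
    · rwa [e] at h1
    · rw [e] at h1
      have : ∏ i ∈ Finset.range q, rho B (r + 3 * q + 3 * i)
          = ∏ i ∈ Finset.range q, rho B (r + 3 * i) := by
        apply Finset.prod_congr rfl
        intro i _
        rw [show r + 3 * q + 3 * i = r + 3 * i + 3 * q * 1 by ring, rho_per hper]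
      rwa [this] at h1
  · intro h
    refine ⟨?_, hBcrit⟩
    intro n hn j hj _ hmod
    rw [token_pos hB] at hmod ⊢
    simp only at hmod ⊢
    have hdvd : k ∣ 3 * (j + 1) := by
      have h1 := Nat.mod_add_div (n + 3 + 3 * j) k
      rw [hmod] at h1
      exact ⟨(n + 3 + 3 * j) / k, by omega⟩
    by_cases h3 : 3 ∣ k
    · obtain ⟨q, rfl⟩ := h3
      have h' := h ⟨q, rfl⟩
      rw [Nat.mul_div_cancel_left _ (by norm_num)] at h'
      have hq : 0 < q := by omega
      obtain ⟨t, ht⟩ := Nat.dvd_of_mul_dvd_mul_left (by norm_num) hdvd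
      have ht0 : t ≠ 0 := by rintro rfl; omega
      have hf : ∀ a, rho B (a + 3 * q) = rho B a := by
        intro a
        have := rho_per hper a 1
        rwa [mul_one] at this
      rw [ht, prod_pow hf]
      have e : ∏ i ∈ Finset.range q, rho B (n + 1 + 3 * i)
          = ∏ i ∈ Finset.range q, rho B ((n + 1) % 3 + 3 * i) := by
        rw [← prod_rot_mul hf ((n + 1) % 3) ((n + 1) / 3), Nat.mod_add_div]
      rw [e]
      exact pow_lt_one₀ (Finset.prod_nonneg (fun i _ => (rho_pos hB _).le))
        (h' _ (Nat.mod_lt _ (by norm_num))) ht0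
    · have hco : Nat.Coprime k 3 := by
        rw [Nat.coprime_comm]
        exact (Nat.Prime.coprime_iff_not_dvd Nat.prime_three).mpr h3
      have h1 : k ∣ j + 1 := hco.dvd_of_dvd_mul_left hdvd
      have h2 : j + 1 = k := by
        have := Nat.le_of_dvd (by omega) h1
        omega
      rw [h2]
      exact full_lt hB hk hper h3 _

/-- **Theorem.** Let `k ≥ 2`, `B_n ≥ 0` with least period `k`.

1. Every positive solution of `x_{n+1} = 1/(B_n x_n + x_{n-1})` is bounded if and only if the
   finite criterion `Criterion k B` holds.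
2. If it fails, then no positive solution is bounded.
3. If all `B_n` are positive, the criterion says that `3 ∤ k` or the three products
   `∏_{n < k, n = r mod 3} B_n / (1 + B_n B_{n+2})` are less than one. -/
theorem result {k : ℕ} (hk : 2 ≤ k) {B : ℕ → ℝ} (hB : ∀ n, 0 ≤ B n) (hlp : LeastPeriod B k) :
    ((∀ x, PositiveSolution B x → Bounded x) ↔ Criterion k B) ∧
    (¬ Criterion k B → ∀ x, PositiveSolution B x → ¬ Bounded x) ∧
    ((∀ n, 0 < B n) → (Criterion k B ↔
      (3 ∣ k → ∀ r < 3, ∏ i ∈ Finset.range (k / 3), rho B (r + 3 * i) < 1))) := by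
  have hk0 : 0 < k := by omega
  refine ⟨⟨?_, ?_⟩, ?_, ?_⟩
  · intro h
    by_contra hcon
    obtain ⟨x, hx⟩ := exists_sol (B := B)
    exact unbounded_of_not_criterion hB hk0 hlp.1 hcon hx (h x hx)
  · intro h x hx
    exact bounded_of_criterion hB hk hlp h hx
  · intro h x hx
    exact unbounded_of_not_criterion hB hk0 hlp.1 h hx
  · intro h
    exact criterion_pos h hk0 hlp.1

end Pool.Agent.Results.MP_2c9a54_an.BoundednessCriterion
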